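import Mathlib
import Pool.Agent.Q240.PN.Fin
import Pool.Agent.Q240.PN.Cand
import Pool.Agent.Q240.PN.Mid
import Pool.Agent.Q240.PN.Chl
import Pool.Agent.Q298.PN.NEAR
import Pool.Agent.Q298.PN.WIN
import Pool.Agent.Q298.PN.SM

/-!
Increments between successive record values of the normalised surplus `g(n) = (H(n) - 2) √n` on odd primitive
non-deficient numbers: they are unbounded.

For an odd primitive non-deficient `n` and a prime `p ∣ n` one has `H(n) < 2 W p/(p-1)`, where `W` is the supremum of
`∏_{p ∈ A} p²/(p²-1)` over the finite sets `A` of odd primes with `∏_{p ∈ A} (1+1/p) < 2`. On the other hand there are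
arbitrarily large `Y` and odd primitive non-deficient `n` with `H(n) ≥ 2 W (1 + a/Y²)` and `log n ≥ b Y log Y`. If the
increments were bounded, there would be more records `k ≤ n` with `H(k) ≥ 2 W (1 + a/(2Y²))` than there are
integers up to `n` without prime factors above a multiple of `Y²`.
-/

set_option autoImplicit false

namespace Pool.Agent.Results.MP_40f968_nt.UnboundedIncrements

/-- `H(n) = ∏_{p ∣ n} p / (p - 1)`. -/
noncomputable def H (n : ℕ) : ℝ := ∏ p ∈ n.primeFactors, (p : ℝ) / ((p : ℝ) - 1)

/-- `g(n) = (H(n) - 2) √n`. -/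
noncomputable def g (n : ℕ) : ℝ := (H n - 2) * Real.sqrt n

/-- `n` is non-deficient: `σ(n) ≥ 2 n`. -/
def NonDeficient (n : ℕ) : Prop := 2 * n ≤ ∑ d ∈ n.divisors, d

/-- `n` is non-deficient and no proper divisor of `n` is non-deficient. -/
def PrimitiveNonDeficient (n : ℕ) : Prop :=
  NonDeficient n ∧ ∀ d : ℕ, d ∣ n → d < n → ¬ NonDeficient d

/-- The odd primitive non-deficient numbers setting a record for `g` among the odd primitive non-deficient
numbers. -/
def B₂ : Set ℕ := {n | Odd n ∧ PrimitiveNonDeficient n ∧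
  ∀ k < n, Odd k → PrimitiveNonDeficient k → g k < g n}

/-- `b j` is the element of index `j` (counted from `0`) of `B₂` in increasing order. -/
noncomputable def b (j : ℕ) : ℕ := Nat.nth (· ∈ B₂) j

/-- The set of records is infinite, and the increments between successive record values are unbounded. -/
theorem result : B₂.Infinite ∧ ∀ M : ℝ, ∃ j : ℕ, M < g (b (j + 1)) - g (b j) := by
  have hB := Pool.Agent.Q240.PN.bas
  have hC := Pool.Agent.Q240.PN.chl
  exact Pool.Agent.Q240.PN.fin_of hB (Pool.Agent.Q240.PN.up hB)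
    (Pool.Agent.Q240.PN.cand hB
      (Pool.Agent.Q298.PN.NEAR.near hB (Pool.Agent.Q240.PN.st1 hB) (Pool.Agent.Q240.PN.mid hC))
      (Pool.Agent.Q298.PN.WIN.win hC))
    Pool.Agent.Q298.PN.SM.sm

end Pool.Agent.Results.MP_40f968_nt.UnboundedIncrements
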